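import Pool.Graph.R_pool_sql_team_39128cda.H.MP_3bc7a7_gt.A

/-!
# MP_3bc7a7_gt, Q1: the counterexample from a dominating family of size `ℵ₁`

The library's counterexample (a normal first-countable weakly Lindelöf space which is not
cellular-Lindelöf) uses the continuum hypothesis to build a maximal tower of length `ω₁` and an
`ω₁`-sequence of branches of the tree of finite sequences. Both are built here from a dominating
family of functions each of whose bounded subfamilies is countable; such a family exists as soon as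
there is a dominating family with at most `ℵ₁` members (that is, `𝔡 = ℵ₁`).
-/

set_option autoImplicit false

namespace Pool.Agent.Results.MP_3bc7a7_gt.Dominating

open Set Function Filter Topology Cardinal

/-- The well-ordered set of order type `ω₁`. -/
abbrev J : Type := (aleph 1).ord.ToType

theorem cI (a : J) : (Iic a).Countable := by
  rw [← Iio_union_right]
  refine Countable.union ?_ (countable_singleton a)
  rw [← le_aleph0_iff_set_countable, ← Order.lt_succ_iff, succ_aleph0]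
  exact mk_Iio_toType_ord_lt a

theorem mkJ : #J = aleph 1 := by simp

theorem uncJ : ¬ (univ : Set J).Countable := by
  intro h
  have h1 : #(univ : Set J) ≤ aleph0 := (le_aleph0_iff_set_countable).2 h
  rw [mk_univ, mkJ] at h1
  exact absurd h1 (not_le.2 aleph0_lt_aleph_one)

theorem bddJ (C : Set J) (hC : C.Countable) : ∃ a, ∀ c ∈ C, c ≤ a := by
  by_contra h
  push Not at h
  refine uncJ ((hC.biUnion fun c _ => cI c).mono fun a _ => ?_)
  obtain ⟨c, hc, hac⟩ := h a
  exact mem_biUnion hc (mem_Iic.2 hac.le)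

/-- Transfinite recursion along `ω₁`. -/
theorem recJ {α : Type} [Inhabited α] (Q : J → α → Prop) (r : α → α → Prop)
    (h : ∀ (j : J) (t : J → α), (∀ i < j, Q i (t i) ∧ ∀ i' < i, r (t i') (t i)) →
      ∃ a, Q j a ∧ ∀ i < j, r (t i) a) :
    ∃ T : J → α, ∀ j, Q j (T j) ∧ ∀ i < j, r (T i) (T j) := by
  classical
  let ext : J → (J → α) → α := fun j t =>
    if H : ∃ a, Q j a ∧ ∀ i < j, r (t i) a then H.choose else default
  have hext : ∀ (j : J) (t : J → α), (∃ a, Q j a ∧ ∀ i < j, r (t i) a) →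
      Q j (ext j t) ∧ ∀ i < j, r (t i) (ext j t) := by
    intro j t H
    have : ext j t = H.choose := dif_pos H
    rw [this]
    exact H.choose_spec
  let F : (j : J) → ((i : J) → i < j → α) → α := fun j t =>
    ext j (fun i => if H : i < j then t i H else default)
  let T : J → α := (wellFounded_lt (α := J)).fix F
  have hT : ∀ j, T j = ext j (fun i => if i < j then T i else default) := by
    intro j
    have h1 : T j = F j (fun i _ => T i) := (wellFounded_lt (α := J)).fix_eq F j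
    rw [h1]
    simp only [F]
    rfl
  refine ⟨T, fun j => ?_⟩
  induction j using (wellFounded_lt (α := J)).induction with
  | _ j ih =>
    have h1 := h j (fun i => if i < j then T i else default) (by
      intro i hi
      simp only [hi, if_true]
      refine ⟨(ih i hi).1, fun i' hi' => ?_⟩
      simp only [hi'.trans hi, if_true]
      exact (ih i hi).2 i' hi')
    have h2 := hext j _ h1
    rw [hT j]
    refine ⟨h2.1, fun i hi => ?_⟩
    have h3 := h2.2 i hi
    simpa only [hi, if_true] using h3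

/-- A sparse pseudo-intersection of countably many infinite sets, pairwise comparable modulo
finite sets. -/
theorem pseudo {C : Set (Set ℕ)} (hc : C.Countable) (hi : ∀ a ∈ C, a.Infinite)
    (ht : ∀ a ∈ C, ∀ b ∈ C, (a \ b).Finite ∨ (b \ a).Finite) (y : ℕ → ℕ) :
    ∃ P : Set ℕ, P.Infinite ∧ (∀ n, {k ∈ P | k < y n}.ncard ≤ n) ∧
      ∀ a ∈ C, (P \ a).Finite := by
  classical
  obtain ⟨c, hcr⟩ := (hc.insert Set.univ).exists_eq_range (insert_nonempty Set.univ C)
  have hcm : ∀ n, c n = Set.univ ∨ c n ∈ C := fun n => by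
    have : c n ∈ insert Set.univ C := hcr ▸ mem_range_self n
    exact this
  have hcmp : ∀ D, (D = Set.univ ∨ D ∈ C) → ∀ n, (D \ c n).Finite ∨ (c n \ D).Finite := by
    intro D hD n
    rcases hD with rfl | hD
    · right; simp
    rcases hcm n with h | h
    · left; rw [h]; simp
    · exact ht _ hD _ h
  have hD : ∀ n, ∃ D, (D = Set.univ ∨ D ∈ C) ∧ ∀ m ≤ n, (D \ c m).Finite := by
    intro n
    induction n with
    | zero => exact ⟨c 0, hcm 0, fun m hm => by simp [Nat.le_zero.1 hm]⟩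
    | succ n ih =>
      obtain ⟨D, hD, hm⟩ := ih
      rcases hcmp D hD (n + 1) with h | h
      · refine ⟨D, hD, fun m hm' => ?_⟩
        rcases Nat.lt_or_ge n m with h1 | h1
        · have : m = n + 1 := le_antisymm hm' h1
          rw [this]; exact h
        · exact hm m h1
      · refine ⟨c (n + 1), hcm _, fun m hm' => ?_⟩
        rcases Nat.lt_or_ge n m with h1 | h1
        · have : m = n + 1 := le_antisymm hm' h1
          rw [this]; simp
        · refine (h.union (hm m h1)).subset fun x hx => ?_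
          by_cases hxD : x ∈ D
          · exact Or.inr ⟨hxD, hx.2⟩
          · exact Or.inl ⟨hx.1, hxD⟩
  have hp : ∀ n, ∃ k, (∀ m ≤ n, k ∈ c m) ∧ (∑ i ∈ Finset.range (n + 1), y i) + n ≤ k := by
    intro n
    obtain ⟨D, hD, hm⟩ := hD n
    have hDi : D.Infinite := by
      rcases hD with rfl | hD
      · exact infinite_univ
      · exact hi _ hD
    have hfin : (⋃ m ∈ Finset.range (n + 1), (D \ c m)).Finite :=
      (Finset.finite_toSet (Finset.range (n+1))).biUnion fun m hm' => hm m (by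
        have := Finset.mem_coe.1 hm'
        simp at this; omega)
    obtain ⟨k, ⟨hk, hk'⟩, hk2⟩ := (hDi.sdiff hfin).exists_gt ((∑ i ∈ Finset.range (n + 1), y i) + n)
    refine ⟨k, fun m hm' => ?_, hk2.le⟩
    by_contra hkm
    exact hk' (mem_biUnion (x := m) (by simp; omega) ⟨hk, hkm⟩)
  choose p p1 p2 using hp
  refine ⟨range p, ?_, fun n => ?_, fun a ha => ?_⟩
  · intro hfin
    obtain ⟨B, hB⟩ := hfin.bddAbove
    have := hB (mem_range_self (B + 1))
    have h2 := p2 (B + 1)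
    omega
  · have hsub : {k ∈ range p | k < y n} ⊆ p '' (Finset.range n : Set ℕ) := by
      rintro _ ⟨⟨m, rfl⟩, hm⟩
      refine ⟨m, ?_, rfl⟩
      simp only [Finset.coe_range, mem_Iio]
      by_contra hmn
      push Not at hmn
      have h1 : y n ≤ ∑ i ∈ Finset.range (m + 1), y i :=
        Finset.single_le_sum (f := y) (fun _ _ => Nat.zero_le _) (by simp; omega)
      have h2 := p2 m
      have hm' : p m < y n := hm
      omega
    calc _ ≤ (p '' (Finset.range n : Set ℕ)).ncard := ncard_le_ncard hsub ((Finset.finite_toSet _).image _)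
      _ ≤ (Finset.range n : Set ℕ).ncard := ncard_image_le (Finset.finite_toSet _)
      _ = n := by rw [ncard_coe_finset]; simp
  · obtain ⟨N, hN⟩ : a ∈ range c := hcr ▸ mem_insert_of_mem _ ha
    refine ((Finset.finite_toSet (Finset.range N)).image p).subset ?_
    rintro _ ⟨⟨m, rfl⟩, hm⟩
    refine ⟨m, ?_, rfl⟩
    simp only [Finset.coe_range, mem_Iio]
    by_contra hmn
    push Not at hmn
    exact hm (hN ▸ p1 m N hmn)

/-- From an `ω₁`-indexed unbounded family to a maximal tower of length `ω₁`. -/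
theorem tower (y : J → ℕ → ℕ) (hy : ∀ g : ℕ → ℕ, ∃ j, ∃ᶠ n in atTop, g n < y j n) :
    ∃ T : J → Set ℕ, (∀ a, (T a).Infinite) ∧ (∀ a b, a ≤ b → (T b \ T a).Finite) ∧
      ∀ B : Set ℕ, B.Infinite → ∃ a, (B \ T a).Infinite := by
  classical
  obtain ⟨T, hT⟩ := recJ (α := Set ℕ)
    (fun j P => P.Infinite ∧ ∀ n, {k ∈ P | k < y j n}.ncard ≤ n)
    (fun P R => (R \ P).Finite) (by
      intro j t ht
      obtain ⟨P, h1, h2, h3⟩ := pseudo (C := t '' Iio j)
        (((cI j).mono Iio_subset_Iic_self).image _)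
        (by rintro _ ⟨i, hi, rfl⟩; exact (ht i hi).1.1)
        (by
          rintro _ ⟨i, hi, rfl⟩ _ ⟨i', hi', rfl⟩
          rcases lt_trichotomy i i' with h | rfl | h
          · exact Or.inr ((ht i' hi').2 i h)
          · left; simp
          · exact Or.inl ((ht i hi).2 i' h)) (y j)
      exact ⟨P, ⟨h1, h2⟩, fun i hi => h3 _ (mem_image_of_mem _ hi)⟩)
  refine ⟨T, fun a => (hT a).1.1, fun a b hab => ?_, fun B hB => ?_⟩
  · rcases hab.eq_or_lt with rfl | h
    · simp
    · exact (hT b).2 a h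
  · by_contra hcon
    push Not at hcon
    -- enumerate `B` increasingly
    have := hB.to_subtype
    let e : ℕ ↪o ℕ := OrderEmbedding.ofStrictMono (fun n => (Nat.nth (· ∈ B) n))
      (Nat.nth_strictMono hB)
    have he : ∀ n, e n ∈ B := fun n => Nat.nth_mem_of_infinite hB n
    obtain ⟨j, hj⟩ := hy (fun n => e (2 * n))
    have hfin : (B \ T j).Finite := hcon j
    obtain ⟨n, hn, hn2⟩ := (hj.and_eventually (eventually_gt_atTop (B \ T j).ncard)).exists
    have h1 : (e '' (Finset.range (2 * n + 1) : Set ℕ)).ncard = 2 * n + 1 := by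
      rw [ncard_image_of_injective _ e.injective, ncard_coe_finset]; simp
    have h2 : e '' (Finset.range (2 * n + 1) : Set ℕ) ⊆
        {k ∈ T j | k < y j n} ∪ (B \ T j) := by
      rintro _ ⟨m, hm, rfl⟩
      simp only [Finset.coe_range, mem_Iio] at hm
      by_cases h : e m ∈ T j
      · refine Or.inl ⟨h, lt_of_le_of_lt ?_ hn⟩
        exact e.monotone (by omega)
      · exact Or.inr ⟨he m, h⟩
    have hfin2 : {k ∈ T j | k < y j n}.Finite := (finite_Iio (y j n)).subset fun k hk => hk.2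
    have h3 := ncard_le_ncard h2 (hfin2.union hfin)
    have h4 := ncard_union_le {k ∈ T j | k < y j n} (B \ T j)
    have h5 := (hT j).1.2 n
    omega


/-- There is a dominating family of at most `ℵ₁` functions: `𝔡 = ℵ₁`. -/
def SmallDominating : Prop :=
  ∃ D : Set (ℕ → ℕ), #D ≤ aleph 1 ∧ ∀ g : ℕ → ℕ, ∃ f ∈ D, ∀ᶠ n in atTop, g n ≤ f n

/-- There is a dominating family of which every function bounds (everywhere) only countably many
members. -/
def ThinDominating : Prop :=
  ∃ F : Set (ℕ → ℕ), (∀ g : ℕ → ℕ, {f ∈ F | ∀ n, f n ≤ g n}.Countable) ∧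
    ∀ g : ℕ → ℕ, ∃ f ∈ F, ∀ᶠ n in atTop, g n ≤ f n

theorem small_of_ch (h : continuum.{0} = aleph 1) : SmallDominating := by
  refine ⟨Set.univ, ?_, fun g => ⟨g, mem_univ _, Eventually.of_forall fun n => le_rfl⟩⟩
  rw [mk_univ]
  simp [← h]

/-- A dominating family is not countable. -/
theorem dom_unc {F : Set (ℕ → ℕ)} (hF : ∀ g : ℕ → ℕ, ∃ f ∈ F, ∀ᶠ n in atTop, g n ≤ f n) :
    ¬ F.Countable := by
  intro hc
  obtain ⟨f₀, hf₀, -⟩ := hF 0
  obtain ⟨e, he⟩ := hc.exists_eq_range ⟨f₀, hf₀⟩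
  obtain ⟨f, hf, hfd⟩ := hF (fun n => (∑ i ∈ Finset.range (n + 1), e i n) + 1)
  rw [he] at hf
  obtain ⟨m, rfl⟩ := hf
  obtain ⟨n, hn, hn2⟩ := (hfd.and (eventually_ge_atTop m)).exists
  have : e m n ≤ ∑ i ∈ Finset.range (n + 1), e i n :=
    Finset.single_le_sum (f := fun i => e i n) (fun _ _ => Nat.zero_le _) (by simp; omega)
  omega

theorem thin_of_small (h : SmallDominating) : ThinDominating := by
  obtain ⟨D, hD, hdom⟩ := h
  have hne : D.Nonempty := by
    obtain ⟨f, hf, -⟩ := hdom 0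
    exact ⟨f, hf⟩
  obtain ⟨f₀, hf₀⟩ := hne
  have hinj : Nonempty (D ↪ J) := by
    rw [← Cardinal.le_def, mkJ]; exact hD
  obtain ⟨ι⟩ := hinj
  let e : J → ℕ → ℕ := Function.extend ι (fun d => d.1) (fun _ => f₀)
  have he : ∀ d : D, e (ι d) = d.1 := fun d => ι.injective.extend_apply _ _ d
  choose c hc using fun j : J => (cI j).exists_eq_range nonempty_Iic
  let f : J → ℕ → ℕ := fun j n => (∑ m ∈ Finset.range (n + 1), e (c j m) n) + 1
  have hf : ∀ i j, i ≤ j → ∀ᶠ n in atTop, e i n < f j n := by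
    intro i j hij
    have hi : i ∈ range (c j) := hc j ▸ mem_Iic.2 hij
    obtain ⟨m, rfl⟩ := hi
    filter_upwards [eventually_ge_atTop m] with n hn
    have : e (c j m) n ≤ ∑ m ∈ Finset.range (n + 1), e (c j m) n :=
      Finset.single_le_sum (f := fun m => e (c j m) n) (fun _ _ => Nat.zero_le _) (by simp; omega)
    simp only [f]
    omega
  refine ⟨range f, fun g => ?_, fun g => ?_⟩
  · obtain ⟨d, hd, hgd⟩ := hdom g
    refine (((cI (ι ⟨d, hd⟩)).image f)).mono ?_
    rintro _ ⟨⟨j, rfl⟩, hj⟩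
    refine ⟨j, ?_, rfl⟩
    by_contra hji
    rw [mem_Iic, not_le] at hji
    obtain ⟨n, hn, hn2⟩ := (hgd.and (hf _ _ hji.le)).exists
    rw [he] at hn2
    have := hj n
    simp only at hn2
    omega
  · obtain ⟨d, hd, hgd⟩ := hdom g
    refine ⟨_, mem_range_self (ι ⟨d, hd⟩), ?_⟩
    filter_upwards [hgd, hf _ _ (le_refl (ι ⟨d, hd⟩))] with n h1 h2
    rw [he] at h2
    simp only at h2
    omega

/-- The combinatorial input for the space, from a thin dominating family. -/
theorem dd (h : ThinDominating) : ∃ (I : Type) (A : J → Set ℕ) (b : I → ℕ → List ℕ)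
    (d : I → ℕ → ℕ),
    (∀ a b, a ≤ b → (A a \ A b).Finite) ∧ (∀ a, (A a)ᶜ.Infinite) ∧
    (∀ B : Set ℕ, B.Infinite → ∃ a, (B ∩ A a).Infinite) ∧
    (∀ i, b i 0 = []) ∧ (∀ i n, b i (n + 1) = d i n :: b i n) ∧
    (∀ N : List ℕ → Set ℕ, (∀ s, (N s).Finite) → {i | ∀ n, d i n ∈ N (b i n)}.Countable) ∧
    ∀ α : List ℕ → J, ¬ {i | ∀ n, d i n ∈ (A (α (b i n)))ᶜ}.Countable := by
  classical
  obtain ⟨F, hF, hdom⟩ := h
  have hFu : ¬ F.Countable := dom_unc hdom
  have hJF : #J ≤ #F := by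
    rw [mkJ]
    rw [← le_aleph0_iff_set_countable, not_le] at hFu
    rw [← succ_aleph0]
    exact Order.succ_le_of_lt hFu
  obtain ⟨ι⟩ : Nonempty (J ↪ F) := by rwa [← Cardinal.le_def]
  obtain ⟨T, t1, t2, t3⟩ := tower (fun j => (ι j).1) (by
    intro g
    by_contra hcon
    push Not at hcon
    have h1 : ∀ j, ∃ m, ∀ n, (ι j).1 n ≤ g n + m := by
      intro j
      have h2 : ∀ᶠ n in atTop, (ι j).1 n ≤ g n := by
        have := hcon j
        simpa using this
      obtain ⟨N, hN⟩ := eventually_atTop.1 h2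
      refine ⟨∑ i ∈ Finset.range N, (ι j).1 i, fun n => ?_⟩
      rcases Nat.lt_or_ge n N with h3 | h3
      · have : (ι j).1 n ≤ ∑ i ∈ Finset.range N, (ι j).1 i :=
          Finset.single_le_sum (f := (ι j).1) (fun _ _ => Nat.zero_le _) (by simpa using h3)
        omega
      · have := hN n h3; omega
    have h5 : ∀ m : ℕ, {j : J | ∀ n, (ι j).1 n ≤ g n + m}.Countable := by
      intro m
      have h2 : ((fun j : J => (ι j).1) ⁻¹' {f ∈ F | ∀ n, f n ≤ g n + m}).Countable :=
        (hF (fun n => g n + m)).preimage (Subtype.val_injective.comp ι.injective)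
      exact h2.mono fun j hj => And.intro (ι j).2 hj
    refine uncJ ((countable_iUnion h5).mono fun j _ => ?_)
    obtain ⟨m, hm⟩ := h1 j
    exact mem_iUnion.2 ⟨m, hm⟩)
  -- the index bijection
  have hcard : #F = #(F × J × ℕ) := by
    have hFinf : aleph0 ≤ #F := (aleph0_le_aleph 1).trans (mkJ ▸ hJF)
    have h1 : #(F × J × ℕ) = #F * (#J * aleph0) := by simp [Cardinal.mk_prod]
    rw [h1, mul_aleph0_eq (by rw [mkJ]; exact aleph0_le_aleph 1)]
    rw [mul_eq_left hFinf hJF (by rw [mkJ]; exact (aleph_pos 1).ne')]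
  obtain ⟨σ⟩ := Cardinal.eq.1 hcard
  have hnx : ∀ (a : J) (k : ℕ), ∃ l ∈ T a, k ≤ l := fun a k => by
    obtain ⟨l, h1, h2⟩ := (t1 a).exists_gt k
    exact ⟨l, h1, h2.le⟩
  choose nx nx1 nx2 using hnx
  let st : F → ℕ → List ℕ → ℕ := fun i n s =>
    nx (σ i).2.1 (i.1 n + ((σ i).1.1 (Encodable.encode s) + (σ i).2.2))
  let b : F → ℕ → List ℕ := fun i => Nat.rec [] fun n s => st i n s :: s
  let d : F → ℕ → ℕ := fun i n => st i n (b i n)
  refine ⟨F, fun a => (T a)ᶜ, b, d, fun a b hab => ?_, fun a => ?_, fun B hB => ?_, fun _ => rfl,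
    fun _ _ => rfl, fun N hN => ?_, fun α => ?_⟩
  · refine (t2 a b hab).subset fun x hx => ⟨?_, hx.1⟩
    exact not_not.1 hx.2
  · rw [compl_compl]; exact t1 a
  · obtain ⟨a, ha⟩ := t3 B hB
    exact ⟨a, ha⟩
  · -- countably many members in a finitely branching tree
    let L : ℕ → Set (List ℕ) := Nat.rec {[]} fun n S => ⋃ s ∈ S, (fun k => k :: s) '' N s
    have hL : ∀ n, (L n).Finite := by
      intro n
      induction n with
      | zero => exact finite_singleton _
      | succ n ih => exact ih.biUnion fun s _ => (hN s).image _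
    have hG : ∀ n, ∃ G, ∀ s ∈ L n, ∀ k ∈ N s, k ≤ G := by
      intro n
      obtain ⟨G, hG⟩ := ((hL n).biUnion fun s _ => hN s).bddAbove
      exact ⟨G, fun s hs k hk => hG (mem_biUnion hs hk)⟩
    choose G hG using hG
    have hpre : ((Subtype.val : F → ℕ → ℕ) ⁻¹' {f ∈ F | ∀ n, f n ≤ G n}).Countable :=
      (hF G).preimage Subtype.val_injective
    refine hpre.mono ?_
    intro i hi
    refine ⟨i.2, fun n => ?_⟩
    have hb : ∀ n, b i n ∈ L n := by
      intro n
      induction n with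
      | zero => exact rfl
      | succ n ih => exact mem_biUnion ih (mem_image_of_mem _ (hi n))
    have h1 := hG n _ (hb n) _ (hi n)
    have h2 : i.1 n + ((σ i).1.1 (Encodable.encode (b i n)) + (σ i).2.2) ≤ d i n := nx2 _ _
    omega
  · obtain ⟨a₀, ha₀⟩ := bddJ (range α) (countable_range α)
    have hφ : ∀ a : Ici a₀, ∃ i : F, (σ i).2.1 = a.1 ∧ ∀ n, d i n ∈ T (α (b i n)) := by
      rintro ⟨a, ha⟩
      have h1 : ∀ s : List ℕ, ∃ K, ∀ k ∈ T a, K ≤ k → k ∈ T (α s) := by
        intro s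
        have hfin := t2 (α s) a ((ha₀ _ (mem_range_self s)).trans ha)
        obtain ⟨K, hK⟩ := hfin.bddAbove
        refine ⟨K + 1, fun k hk hKk => ?_⟩
        by_contra hcon
        have := hK ⟨hk, hcon⟩
        omega
      choose φ hφ using h1
      obtain ⟨g, hg, hgd⟩ := hdom (fun m => ((Encodable.decode (α := List ℕ) m).map φ).getD 0)
      have h2 : ∃ m, ∀ s, φ s ≤ g (Encodable.encode s) + m := by
        obtain ⟨M, hM⟩ := eventually_atTop.1 hgd
        refine ⟨∑ m ∈ Finset.range M, ((Encodable.decode (α := List ℕ) m).map φ).getD 0,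
          fun s => ?_⟩
        rcases Nat.lt_or_ge (Encodable.encode s) M with h3 | h3
        · have h4 : ((Encodable.decode (α := List ℕ) (Encodable.encode s)).map φ).getD 0 ≤
              ∑ m ∈ Finset.range M, ((Encodable.decode (α := List ℕ) m).map φ).getD 0 :=
            Finset.single_le_sum
              (f := fun m => ((Encodable.decode (α := List ℕ) m).map φ).getD 0)
              (fun _ _ => Nat.zero_le _) (by simpa using h3)
          simp only [Encodable.encodek, Option.map_some, Option.getD_some] at h4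
          omega
        · have h4 := hM _ h3
          simp only [Encodable.encodek, Option.map_some, Option.getD_some] at h4
          omega
      obtain ⟨m, hm⟩ := h2
      refine ⟨σ.symm (⟨g, hg⟩, a, m), by simp, fun n => ?_⟩
      set i := σ.symm (⟨g, hg⟩, a, m) with hi
      have hσ : σ i = (⟨g, hg⟩, a, m) := by rw [hi]; simp
      have h3 : d i n = nx a (i.1 n + (g (Encodable.encode (b i n)) + m)) := by
        simp only [d, st, hσ]
      rw [h3]
      refine hφ (b i n) _ (nx1 _ _) ?_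
      have h4 := nx2 a (i.1 n + (g (Encodable.encode (b i n)) + m))
      have h5 := hm (b i n)
      omega
    choose i hi1 hi2 using hφ
    intro hc
    have hinj : Injective i := by
      intro a a' haa
      have h1 := hi1 a
      have h2 := hi1 a'
      rw [haa] at h1
      exact Subtype.ext (h1.symm.trans h2)
    have hc2 : (range i).Countable := hc.mono (by
      rintro _ ⟨a, rfl⟩ n
      show _ ∈ ((T (α (b (i a) n)))ᶜ)ᶜ
      rw [compl_compl]
      exact hi2 a n)
    have hc3 : Countable (Ici a₀) := by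
      have h1 : Countable (range i) := hc2.to_subtype
      exact (Equiv.ofInjective i hinj).countable_iff.2 h1
    refine uncJ (((cI a₀).union (to_countable (Ici a₀))).mono fun a _ => ?_)
    exact le_total a a₀

/-- Every open cover has a countable subfamily with a dense union. -/
def WeaklyLindelof (X : Type) [TopologicalSpace X] : Prop :=
  ∀ 𝒰 : Set (Set X), (∀ U ∈ 𝒰, IsOpen U) → ⋃₀ 𝒰 = Set.univ →
    ∃ 𝒱 ⊆ 𝒰, 𝒱.Countable ∧ Dense (⋃₀ 𝒱)

/-- For every family of pairwise disjoint nonempty open sets there is a Lindelöf subset which meets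
all of them. -/
def CellularLindelof (X : Type) [TopologicalSpace X] : Prop :=
  ∀ 𝒰 : Set (Set X), (∀ U ∈ 𝒰, IsOpen U ∧ U.Nonempty) → 𝒰.PairwiseDisjoint id →
    ∃ L : Set X, IsLindelof L ∧ ∀ U ∈ 𝒰, (L ∩ U).Nonempty

theorem suc {s t : List ℕ} (h : s <:+ t) (k : s ≠ t) : ∃ k, k :: s <:+ t := by
  obtain ⟨u, rfl⟩ := h
  rcases u.eq_nil_or_concat' with rfl | ⟨u, a, rfl⟩
  exacts [(k rfl).elim, ⟨a, u, by simp⟩]

theorem main (h : ThinDominating) :
    ∃ (Y : Type) (_ : TopologicalSpace Y), T4Space Y ∧ FirstCountableTopology Y ∧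
      (∀ 𝒰 : Set (Set Y), (∀ U ∈ 𝒰, IsOpen U) → ⋃₀ 𝒰 = Set.univ →
        ∃ 𝒱 ⊆ 𝒰, 𝒱.Countable ∧ Dense (⋃₀ 𝒱)) ∧
      ¬ ∀ 𝒰 : Set (Set Y), (∀ U ∈ 𝒰, IsOpen U ∧ U.Nonempty) → 𝒰.PairwiseDisjoint id →
        ∃ L : Set Y, IsLindelof L ∧ ∀ U ∈ 𝒰, (L ∩ U).Nonempty := by
  obtain ⟨I, A, b, d, a1, a2, a3, b0, b1, b2, b3⟩ := dd h
  have a0 : ∀ a : J, (Iic a).Countable := cI
  have a4 : ∀ C : Set J, C.Countable → ∃ a, ∀ c ∈ C, c ≤ a := bddJ
  let c : I ⊕ List ℕ × J → ℕ → List ℕ := Sum.elim b fun p _ => p.1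
  let U : List ℕ → Set (I ⊕ List ℕ × J) := fun t => {y | ∃ n, t <:+ c y n}
  let V : List ℕ → J → Set (I ⊕ List ℕ × J) := fun t β =>
    {y | (∃ k ∈ A β, y ∈ U (k :: t)) ∨ ∃ γ ≤ β, y = .inr (t, γ)}
  let S : I ⊕ List ℕ × J → Set (Set (I ⊕ List ℕ × J)) := Sum.elim (fun i => {{.inl i}}) fun p =>
    insert (V p.1 p.2) ((fun β => (V p.1 β)ᶜ) '' Iio p.2 ∪ range fun k => (U (k :: p.1))ᶜ)
  have c1 : ∀ y n m, n ≤ m → c y n <:+ c y m := fun y n m k => by
    induction k with
    | refl => rfl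
    | step _ l => cases y; exacts [l.trans (b1 _ _ ▸ List.suffix_cons _ _ :), l]
  have u1 : ∀ {s t}, s <:+ t → U t ⊆ U s := fun k y => Exists.imp fun _ => k.trans
  have u2 : ∀ {s t y}, y ∈ U s → y ∈ U t → s <:+ t ∨ t <:+ s := fun ⟨n, k⟩ ⟨m, l⟩ =>
    List.suffix_or_suffix_of_suffix (k.trans (c1 _ _ _ (le_max_left n m)))
      (l.trans (c1 _ _ _ (le_max_right n m)))
  have u3 : ∀ {s t γ}, Sum.inr (s, γ) ∈ U t ↔ t <:+ s := ⟨fun ⟨_, k⟩ => k, fun k => ⟨0, k⟩⟩
  have u4 : ∀ {k s γ}, Sum.inr (s, γ) ∉ U (k :: s) := fun k => by simpa using (u3.1 k).length_le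
  have u5 : ∀ {s y}, y ∈ U s → (∃ k, y ∈ U (k :: s)) ∨ ∃ γ, y = .inr (s, γ) := by
    rintro s (i | ⟨t, γ⟩) ⟨n, k⟩
    · obtain ⟨j, l⟩ := suc (k.trans (c1 _ _ _ n.le_succ)) fun l => by
        have := k.length_le
        simp [l, c, b1] at this
      exact .inl ⟨j, _, l⟩
    · exact (em (s = t)).elim (fun l => .inr ⟨γ, l ▸ rfl⟩) fun l =>
        .inl ((suc k l).imp fun _ => u3.2)
  have v1 : ∀ {s β}, V s β ⊆ U s := by
    rintro s β y (⟨k, -, l⟩ | ⟨γ, -, rfl⟩)
    exacts [u1 (List.suffix_cons _ _) l, u3.2 List.suffix_rfl]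
  have v2 : ∀ {s β γ}, Sum.inr (s, γ) ∈ V s β ↔ γ ≤ β :=
    ⟨fun k => k.elim (fun ⟨_, _, l⟩ => (u4 l).elim) fun ⟨_, l, m⟩ => by cases m; exact l,
      fun k => .inr ⟨_, k, rfl⟩⟩
  have v3 : ∀ {s β k y}, y ∈ U (k :: s) → (y ∈ V s β ↔ k ∈ A β) := fun {s β k y} l =>
    ⟨fun m => m.elim (fun ⟨j, p, q⟩ => by
      obtain rfl : j = k := (u2 q l).elim (fun r => (List.cons.inj (r.eq_of_length rfl)).1)
        fun r => (List.cons.inj (r.eq_of_length rfl)).1.symm
      exact p) fun ⟨_, _, p⟩ => (u4 (p ▸ l :)).elim, fun m => .inl ⟨k, m, l⟩⟩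
  letI := TopologicalSpace.mkOfNhds fun x => generate (S x)
  have op : ∀ O, (∀ s α, Sum.inr (s, α) ∈ O → O ∈ generate (S (.inr (s, α)))) → IsOpen O :=
    fun O k => Sum.rec (fun i l => .superset (.basic rfl) (singleton_subset_iff.2 l)) fun p => k _ _
  have g1 : ∀ s α, V s α ∈ generate (S (.inr (s, α))) := fun s α => .basic (.inl rfl)
  have g2 : ∀ s α β, β < α → (V s β)ᶜ ∈ generate (S (.inr (s, α))) := fun s α β k =>
    .basic (.inr (.inl ⟨β, k, rfl⟩))
  have g3 : ∀ s α k, (U (k :: s))ᶜ ∈ generate (S (.inr (s, α))) := fun s α k =>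
    .basic (.inr (.inr ⟨k, rfl⟩))
  have cU : ∀ t, IsClopen (U t) := fun t => ⟨⟨op _ fun s α k => (em (s <:+ t)).elim
    (fun l => (suc l fun m => k (u3.2 (m ▸ List.suffix_rfl))).elim fun j m =>
      mem_of_superset (g3 s α j) (compl_subset_compl.2 (u1 m))) fun l =>
      mem_of_superset (g1 s α) fun y m p => (u2 (v1 m) p).elim l fun q => k (u3.2 q)⟩,
    op _ fun s α k => mem_of_superset (g1 s α) (v1.trans (u1 (u3.1 k)))⟩
  have cV : ∀ t β, IsClopen (V t β) := fun t β => ⟨⟨op _ fun s α k => by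
      by_cases l : Sum.inr (s, α) ∈ U t
      · rcases u5 l with ⟨j, l⟩ | ⟨γ, l⟩
        · exact mem_of_superset ((cU _).isOpen _ l) fun y m p => k ((v3 l).2 ((v3 m).1 p))
        · cases l
          exact g2 _ _ _ (not_le.1 (mt v2.2 k))
      · exact mem_of_superset ((cU t).compl.isOpen _ l) (compl_subset_compl.2 v1)⟩,
    op _ fun s α k => by
      rcases k with ⟨j, k, l⟩ | ⟨γ, k, l⟩
      · exact mem_of_superset ((cU _).isOpen _ l) fun y m => .inl ⟨j, k, m⟩
      cases l
      filter_upwards [g1 t α, (biInter_mem (a1 α β k)).2 fun j _ => g3 t α j] with y l m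
      exact l.imp (Exists.imp fun j p => ⟨by_contra fun q => mem_iInter₂.1 m j ⟨p.1, q⟩ p.2, p.2⟩)
        (Exists.imp fun γ p => ⟨p.1.trans k, p.2⟩)⟩
  have cD : ∀ i, IsClopen {Sum.inl i} := fun i => ⟨⟨op _ fun s α _ =>
    (em (∃ k, Sum.inl i ∈ U (k :: s))).elim (fun ⟨k, l⟩ => mem_of_superset (g3 s α k)
      (compl_subset_compl.2 (singleton_subset_iff.2 l))) fun l => mem_of_superset (g1 s α)
        fun y m p => (p ▸ m :).elim (fun ⟨k, _, q⟩ => l ⟨k, q⟩) nofun⟩, op _ nofun⟩
  have cl : ∀ x, ∀ O ∈ S x, IsClopen O ∧ x ∈ O := by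
    rintro (i | ⟨s, α⟩) O
    · rintro rfl
      exact ⟨cD i, rfl⟩
    rintro (rfl | ⟨β, k, rfl⟩ | ⟨k, rfl⟩)
    exacts [⟨cV _ _, v2.2 le_rfl⟩, ⟨(cV _ _).compl, mt v2.1 k.not_ge⟩, ⟨(cU _).compl, u4⟩]
  have nh : ∀ x, 𝓝 x = generate (S x) := fun x => le_antisymm
    (le_generate_iff.2 fun O k => (cl x O k).1.isOpen.mem_nhds (cl x O k).2) fun O k =>
      let ⟨t, l, m, p⟩ := mem_nhds_iff.1 k; mem_of_superset (m x p) l
  have : FirstCountableTopology (I ⊕ List ℕ × J) := ⟨fun x => ⟨S x, by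
    cases x
    exacts [countable_singleton _, ((((a0 _).mono Iio_subset_Iic_self).image _).union
      (countable_range _)).insert _], nh x⟩⟩
  have : RegularSpace (I ⊕ List ℕ × J) := .of_lift'_closure_le fun x =>
    (le_generate_iff.2 fun O k => (cl x O k).1.isClosed.closure_eq ▸
      mem_lift' ((cl x O k).1.isOpen.mem_nhds (cl x O k).2)).trans (nh x).ge
  have : T1Space (I ⊕ List ℕ × J) := ⟨fun x => by
    suffices ⋂₀ S x = {x} from this ▸ isClosed_sInter fun O k => (cl x O k).1.isClosed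
    refine subset_antisymm (fun y k => ?_) (singleton_subset_iff.2 fun O k => (cl x O k).2)
    rcases x with i | ⟨s, α⟩
    · exact k _ rfl
    rcases k _ (.inl rfl) with ⟨j, -, l⟩ | ⟨γ, l, rfl⟩
    · exact (k _ (.inr (.inr ⟨j, rfl⟩)) l).elim
    · rw [l.antisymm (not_lt.1 fun m => k _ (.inr (.inl ⟨γ, m, rfl⟩)) (v2.2 le_rfl))]
      rfl⟩
  have ac : ∀ s (B : Set ℕ), B.Infinite → ∃ γ, ∀ O ∈ 𝓝 (Sum.inr (s, γ)),
      ∃ k ∈ B, U (k :: s) ⊆ O := fun s B k => by
    obtain ⟨γ, l, m⟩ := wellFounded_lt.has_min {α | (B ∩ A α).Infinite} (a3 B k)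
    have : NeBot (cofinite ⊓ 𝓟 (B ∩ A γ)) :=
      frequently_mem_iff_neBot.1 (frequently_cofinite_mem_iff_infinite.2 l)
    refine ⟨γ, fun O p => Eventually.exists (f := cofinite ⊓ 𝓟 (B ∩ A γ))
      ((eventually_inf_principal.2 (.of_forall fun _ => And.left)).and ?_)⟩
    rw [nh] at p
    induction p with
    | basic p =>
      refine eventually_inf_principal.2 ?_
      rcases p with rfl | ⟨β, q, rfl⟩ | ⟨j, rfl⟩
      · exact .of_forall fun j q y r => .inl ⟨j, q.2, r⟩
      · exact mem_of_superset (not_infinite.1 (m β · q)).compl_mem_cofinite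
          fun j r v y w z => r ⟨v.1, (v3 w).1 z⟩
      · exact (eventually_cofinite_ne j).mono fun i q _ y r v => q
          ((u2 r v).elim (fun r => (List.cons.inj (r.eq_of_length rfl)).1)
            fun r => (List.cons.inj (r.eq_of_length rfl)).1.symm)
    | univ => exact .of_forall fun _ => subset_univ _
    | superset _ q r => exact r.mono fun _ v => v.trans q
    | inter _ _ q r => exact (q.and r).mono fun _ v => subset_inter v.1 v.2
  have cb : ∀ s (H K : Set (I ⊕ List ℕ × J)), IsClosed H → IsClosed K → Disjoint H K →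
      ∃ β, (∀ γ, .inr (s, γ) ∈ H → γ ≤ β) ∨ ∀ γ, .inr (s, γ) ∈ K → γ ≤ β := fun s H K k l m => by
    by_contra! p
    choose f f1 f2 using fun β => (p β).1
    choose g g1 g2 using fun β => (p β).2
    obtain ⟨a, -⟩ := a3 _ infinite_univ
    let x : ℕ → J := Nat.rec a fun _ y => g (f y)
    obtain ⟨γ, q, r⟩ := wellFounded_lt.has_min {γ | ∀ y ∈ range x, y ≤ γ} (a4 _ (countable_range x))
    have : ∀ y : ℕ → J, (∀ n, x n ≤ y n ∧ y n ≤ x (n + 1)) →
        Tendsto (fun n => Sum.inr (s, y n)) atTop (𝓝 (.inr (s, γ))) := fun y v => by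
      rw [nh]
      refine le_generate_iff.2 ?_
      rintro _ (rfl | ⟨β, w, rfl⟩ | ⟨j, rfl⟩)
      · exact Eventually.of_forall (f := atTop) fun n => v2.2 ((v n).2.trans (q _ ⟨n + 1, rfl⟩))
      · obtain ⟨n, z⟩ : ∃ n, β < x n := by simpa using (r β · w)
        exact (eventually_ge_atTop n).mono fun m e => mt v2.1 (z.trans_le ((monotone_nat_of_le_succ
          (fun n => (v n).1.trans (v n).2) e).trans (v m).1)).not_ge
      · exact Eventually.of_forall (f := atTop) fun n => u4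
    exact disjoint_left.1 m (k.mem_of_tendsto (this (fun n => f (x n)) fun n =>
      ⟨(f2 _).le, (g2 _).le⟩) (.of_forall fun n => f1 _)) (l.mem_of_tendsto (this
        (fun n => x (n + 1)) fun n => ⟨((f2 _).trans (g2 _)).le, le_rfl⟩) (.of_forall fun n => g1 _))
  have sp : ∀ H K : Set (I ⊕ List ℕ × J), IsClosed H → IsClosed K → Disjoint H K →
      HasSeparatingCover H K := fun H K k l m => by
    have : ∀ s, ∃ β C, (IsOpen C ∧ Disjoint (closure C) K) ∧
        ∀ γ, .inr (s, γ) ∈ H → γ ≤ β ∨ .inr (s, γ) ∈ C := fun s => by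
      obtain ⟨β, p | p⟩ := cb s H K k l m
      · exact ⟨β, ∅, by simp, fun γ q => .inl (p γ q)⟩
      have q : {j | (U (j :: s) ∩ (K \ V s β)).Nonempty}.Finite := by_contra fun q => by
        obtain ⟨γ, r⟩ := ac s _ q
        have : Sum.inr (s, γ) ∈ K \ V s β := (l.sdiff (cV s β).isOpen).closure_subset
          (mem_closure_iff_nhds.2 fun O v => (r O v).elim fun j w =>
            w.1.mono (inter_subset_inter_left _ w.2))
        exact this.2 (v2.2 (p γ this.1))
      have r := ((cU s).diff (cV s β)).diff (q.isClopen_biUnion fun j _ => cU (j :: s))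
      refine ⟨β, _, ⟨r.isOpen, r.isClosed.closure_eq.symm ▸ disjoint_left.2 fun y v w => ?_⟩,
        fun γ _ => (le_or_gt γ β).imp_right fun v => ⟨⟨u3.2 List.suffix_rfl, mt v2.1 v.not_ge⟩,
          fun w => (mem_iUnion₂.1 w).elim fun _ z => u4 z.2⟩⟩
      rcases u5 v.1.1 with ⟨j, z⟩ | ⟨γ, rfl⟩
      exacts [v.2 (mem_biUnion ⟨y, z, w, v.1.2⟩ z), v.1.2 (v2.2 (p γ w))]
    choose β C c1 c2 using this
    choose! u u1 u2 u3 using fun x (p : x ∈ H) =>
      exists_mem_nhds_isClosed_subset (l.compl_mem_nhds (disjoint_left.1 m p))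
    obtain ⟨e, he⟩ := (((countable_range C).union (((countable_iUnion fun s => (a0 (β s)).image
      fun γ => Sum.inr (s, γ)).mono (inter_subset_right (s := H))).image
        fun x => interior (u x))).insert (H ∩ range .inl)).exists_eq_range (insert_nonempty _ _)
    refine ⟨e, sUnion_range e ▸ he ▸ fun x p => ?_, forall_mem_range (p := fun C =>
      IsOpen C ∧ Disjoint (closure C) K).1 (he ▸ ?_)⟩
    · rcases x with i | ⟨s, γ⟩
      · exact ⟨_, .inl rfl, p, i, rfl⟩
      exact (c2 s γ p).elim (fun q => ⟨_, .inr (.inr ⟨_, ⟨p, mem_iUnion.2 ⟨s, γ, q, rfl⟩⟩, rfl⟩),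
        mem_interior_iff_mem_nhds.2 (u1 _ p)⟩) fun q => ⟨_, .inr (.inl ⟨s, rfl⟩), q⟩
    rintro _ (rfl | ⟨s, rfl⟩ | ⟨x, p, rfl⟩)
    exacts [⟨op _ fun _ _ p => (nomatch p.2), m.mono_left (closure_minimal inter_subset_left k)⟩, c1 s,
      ⟨isOpen_interior, disjoint_left.2 fun y q =>
        u3 x p.1 (closure_minimal interior_subset (u2 x p.1) q)⟩]
  have : NormalSpace (I ⊕ List ℕ × J) := ⟨fun H K k l m =>
    hasSeparatingCovers_iff_separatedNhds.1 ⟨sp H K k l m, sp K H l k m.symm⟩⟩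
  have : T4Space (I ⊕ List ℕ × J) := {}
  refine Pool.Agent.H.MP_3bc7a7_gt.A.red (range (Sum.inl : I → I ⊕ List ℕ × J)) (forall_mem_range.2 fun i => (cD i).isOpen) (fun 𝒰 o k => ?_)
    fun L k l => ?_
  · choose f f1 f2 using k
    choose! g g1 g2 using fun t (p : ∃ O ∈ 𝒰, U t ⊆ O) => p
    have := b2 (fun s => {j | ¬ ∃ O ∈ 𝒰, U (j :: s) ⊆ O}) fun s => by_contra fun q => by
      obtain ⟨γ, r⟩ := ac s _ q
      obtain ⟨j, v, w⟩ := r _ ((o _ (f1 _)).mem_nhds (f2 _))
      exact v ⟨_, f1 _, w⟩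
    refine ⟨g '' {t | ∃ O ∈ 𝒰, U t ⊆ O} ∪ (fun i => f (.inl i)) '' _, union_subset
      (image_subset_iff.2 g1) (image_subset_iff.2 fun i _ => f1 _),
      ((to_countable _).image _).union (this.image _), range_subset_iff.2 fun i => ?_⟩
    by_cases p : ∀ n, ¬ ∃ O ∈ 𝒰, U (d i n :: b i n) ⊆ O
    · exact ⟨_, .inr ⟨i, p, rfl⟩, f2 _⟩
    obtain ⟨n, p⟩ := not_forall_not.1 p
    exact ⟨_, .inl ⟨_, p, rfl⟩, g2 _ p ⟨n + 1, (b1 i n).symm ▸ List.suffix_rfl⟩⟩
  obtain ⟨a, -⟩ := a3 _ infinite_univ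
  have : ∀ s, ∃ α, ∀ γ, .inr (s, γ) ∈ L → γ ≤ α := fun s => by
    obtain ⟨r, p, q⟩ := l.elim_countable_subcover (fun β => V s β ∪ ((U s)ᶜ ∪ ⋃ j, U (j :: s)))
      (fun β => (cV s β).isOpen.union ((cU s).compl.isOpen.union
        (isOpen_iUnion fun j => (cU _).isOpen))) fun y _ => mem_iUnion.2 (by
          by_cases p : y ∈ U s
          · rcases u5 p with p | ⟨γ, rfl⟩
            exacts [⟨a, .inr (.inr (mem_iUnion.2 p))⟩, ⟨γ, .inl (v2.2 le_rfl)⟩]
          · exact ⟨a, .inr (.inl p)⟩)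
    refine (a4 r p).imp fun α v γ w => ?_
    obtain ⟨β, y, z | z | z⟩ := mem_iUnion₂.1 (q w)
    exacts [(v2.1 z).trans (v β y), (z (u3.2 List.suffix_rfl)).elim,
      (mem_iUnion.1 z).elim fun _ z => (u4 z).elim]
  choose α hα using this
  have z := b3 α
  obtain ⟨i₀, -⟩ := (Set.not_finite.1 fun e => z e.countable).nonempty
  obtain ⟨r, p, q⟩ := l.elim_countable_subcover (fun i => {.inl i} ∪ ⋃ s, V s (α s))
    (fun i => (cD i).isOpen.union (isOpen_iUnion fun s => (cV _ _).isOpen)) (by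
      rintro (i | ⟨s, γ⟩) p
      exacts [mem_iUnion.2 ⟨i, .inl rfl⟩,
        mem_iUnion.2 ⟨i₀, .inr (mem_iUnion.2 ⟨s, v2.2 (hα s γ p)⟩)⟩])
  refine z (p.mono fun i v => ?_)
  obtain ⟨j, w, y | y⟩ := mem_iUnion₂.1 (q (k ⟨i, rfl⟩))
  · cases y
    exact w
  obtain ⟨s, ⟨j, y, n, e⟩ | ⟨_, _, ⟨⟩⟩⟩ := mem_iUnion.1 y
  induction n with
  | zero => simp [c, b0] at e
  | succ n f =>
    simp only [c, Sum.elim_inl, b1, List.suffix_cons_iff (l₂ := b i n)] at e
    rcases e with e | e
    · cases e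
      exact (v n y).elim
    · exact f e


/-- The continuum hypothesis gives a dominating family with at most `ℵ₁` members, which gives a thin
dominating family, which gives a normal `T₁` first-countable weakly Lindelöf space which is not
cellular-Lindelöf. -/
theorem result :
    (continuum.{0} = aleph 1 → SmallDominating) ∧ (SmallDominating → ThinDominating) ∧
    (ThinDominating → ∃ (X : Type) (_ : TopologicalSpace X), T4Space X ∧
      FirstCountableTopology X ∧ WeaklyLindelof X ∧ ¬ CellularLindelof X) :=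
  ⟨small_of_ch, thin_of_small, main⟩

end Pool.Agent.Results.MP_3bc7a7_gt.Dominating
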